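import Pool.Agent.Helper99.SI.StF

set_option autoImplicit false

/-!
Module F7 of project SI: the edge `t = 1`.
-/

namespace Pool.Agent.Helper48.SI

open Pool.Agent.Helper99.SI

section

variable {n : ℕ} {L : Type} [Ring L] [Algebra ℂ L] [StarRing L]

theorem Phi_apply (D : Sys n L) (t : ℂ) (y : L) :
    D.Phi t y = ∑ i, star (D.x i) * (y * D.b.ev t (D.x i)) := by
  rw [Sys.Phi, LinearMap.sum_apply]
  rfl

theorem Phi_one_one [StarModule ℂ L] (h1 : StA0) (D : Sys n L) : D.Phi 1 1 = (n : ℂ) • (1 : L) := by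
  rw [Phi_apply]
  have h : ∀ i, star (D.x i) * (1 * D.b.ev 1 (D.x i)) = 1 := by
    intro i
    have e := (h1 L D.b).2.2.2.2.1 (D.x i)
    rw [e, one_mul, D.orth, if_pos rfl]
  simp only [h, Finset.sum_const, Finset.card_univ, Fintype.card_fin]
  rw [← Nat.cast_smul_eq_nsmul ℂ n (1 : L)]

theorem sum_supp {n r : ℕ} (Z : Finset ℤ) (t : ℂ) (k : ℤ → (Idx n r →₀ ℂ)) (M : ℕ)
    (hk : ∀ j i, k j i ≠ 0 → ilen i < M) (i : Idx n r)
    (h : (∑ j ∈ Z, t ^ j • k j) i ≠ 0) : ilen i < M := by
  rw [Finsupp.finsetSum_apply] at h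
  obtain ⟨j, _, hj⟩ := Finset.exists_ne_zero_of_sum_ne_zero h
  rw [Finsupp.smul_apply] at hj
  exact hk j i (fun h0 => hj (by rw [h0, smul_zero]))

end

theorem hF7 (h1 : StA0) (_h2 : StA1) (h3 : StF5) : StF7 := by
  intro n L _ _ _ _ _ D X0 m hm h1X hE J0 P hJ0
  obtain ⟨τ, hτ1, hτw, hbij⟩ := hE
  obtain ⟨kk, hk1, hk2⟩ := hm.lift 1 h1X
  have hev : ∀ y : L, D.b.ev 1 y = y := (h1 L D.b).2.2.2.2.1
  have hone : ((1 : ℝ) ^ P.n1) = 1 := one_pow _
  obtain ⟨K, hK⟩ : ∃ K : Idx n m.r →₀ ℂ, K = ∑ j ∈ m.Z, ((1 : ℝ) : ℂ) ^ j • kk j := ⟨_, rfl⟩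
  have hK1 : m.piV D 1 K = 1 := by
    rw [hK]
    exact hk2 1 one_pos
  have hK2 : ∀ i, K i ≠ 0 → ilen i < m.M2 := by
    intro i hi
    rw [hK] at hi
    exact sum_supp m.Z _ kk m.M2 hk1 i hi
  -- the functional vanishes off `J0`
  have hz : ∀ i, i ∉ J0 → τ (m.piT D 1 i) = 0 := by
    intro i hi
    match i, hi with
    | Sum.inl (Sum.inl ν), _ =>
      change τ (if m.M ≤ ν.length then D.b.ev ((1 : ℝ) : ℂ) (D.w ν) else 0) = 0
      split_ifs with h
      · rw [Complex.ofReal_one, hev]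
        refine (hτw ν ?_).1
        rintro rfl
        have := hm.M1
        simp only [List.length_nil] at h
        omega
      · exact map_zero _
    | Sum.inl (Sum.inr ν), _ =>
      change τ (if m.M ≤ ν.length then star (D.w ν) else 0) = 0
      split_ifs with h
      · refine (hτw ν ?_).2
        rintro rfl
        have := hm.M1
        simp only [List.length_nil] at h
        omega
      · exact map_zero _
    | Sum.inr a, h => exact absurd (hJ0 a) h
  have hD : ∀ x ∈ Set.Ico (0 : ℝ) 1, (x, (1 : ℝ)) ∈ Dom := by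
    intro x hx
    refine ⟨hx.1, hx.2.le, one_pos, le_refl 1, ?_⟩
    rintro ⟨h, _⟩
    exact absurd h hx.2.ne
  have hsol : ∀ x : ℝ, (1 : L) - (x : ℂ) • D.Phi 1 1 + ((x : ℂ) * n * τ 1) • (1 : L) = 1 := by
    intro x
    rw [Phi_one_one h1 D, hτ1, mul_one, smul_smul, sub_add_cancel]
  obtain ⟨S0, hS0, hS1⟩ := h3 n L D X0 m hm J0 P (Set.Ico 0 1) (fun s => s) (fun _ => 1)
    continuousOn_id continuousOn_const hD Unit (fun _ => (1 : L))
    (fun s _ => ((s : ℂ) * n) • τ) (fun _ _ => K) (fun s => fun _ _ => (s : ℂ) * n)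
    (by
      intro x _ _
      rw [hone]
      exact ⟨hK1, hK2⟩)
    (by
      intro _ i
      exact continuousOn_const)
    (by
      intro x _ _ i hi
      rw [hone, LinearMap.smul_apply, hz i hi, smul_zero])
    (by
      intro _ i
      simp only [hone, LinearMap.smul_apply, smul_eq_mul]
      exact ((Complex.continuous_ofReal.mul continuous_const).mul continuous_const).continuousOn)
    (by
      intro x hx
      have := hbij x hx.1 hx.2
      simpa only [hone, Complex.ofReal_one, Finset.univ_unique, Finset.sum_singleton,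
        LinearMap.smul_apply, smul_eq_mul] using this)
    (by
      intro x hx b y hy a
      have hinj := (hbij x hx.1 hx.2).injective
      have e : y = 1 := by
        apply hinj
        simp only [hone, Complex.ofReal_one, Finset.univ_unique, Finset.sum_singleton,
          LinearMap.smul_apply, smul_eq_mul] at hy
        exact hy.trans (hsol x).symm
      rw [e, LinearMap.smul_apply, hτ1, smul_eq_mul, mul_one])
  refine ⟨S0, hS0, fun s hs => ⟨(hS1 s hs).1, fun S hS => ?_⟩⟩
  rw [(hS1 s hs).2 S hS]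
  congr 1
  rw [Matrix.det_unique]
  change (1 : Matrix Unit Unit ℂ) default default - (s : ℂ) * n = _
  rw [Matrix.one_apply_eq]

end Pool.Agent.Helper48.SI
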