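import Pool.Agent.Helper99.SI.StS

set_option autoImplicit false

/-!
Module S4 of project SI: an operator with dense range which is coercive on the complement has a Schur
complement of nonzero determinant.
-/

namespace Pool.Agent.Helper48.SI

open Pool.Agent.Helper99.SI

theorem s4 : StS4 := by
  intro H _ _ _ ι _ _ e he T S hc hS hd hdet
  obtain ⟨c, hc0, hc⟩ := hc
  obtain ⟨w, hw, hTw⟩ := hS
  obtain ⟨b, hb0, hb⟩ := Matrix.exists_vecMul_eq_zero_iff.2 hdet
  -- the vector `f`
  obtain ⟨f, hf⟩ : ∃ f : H, f = ∑ i, star (b i) • e i := ⟨_, rfl⟩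
  have hfe : ∀ i, inner ℂ f (e i) = b i := by
    intro i
    have h1 := he.inner_left_fintype (fun i => star (b i)) i
    rw [hf, h1]
    simp
  have hef : ∀ i, inner ℂ (e i) f = star (b i) := by
    intro i
    rw [← inner_conj_symm, hfe]
    rfl
  have hfs : ∀ s : ι → ℂ, inner ℂ f (∑ i, s i • e i) = ∑ i, s i * b i := by
    intro s
    rw [inner_sum]
    refine Finset.sum_congr rfl fun i _ => ?_
    rw [inner_smul_right, hfe]
  have hf0 : f ≠ 0 := by
    intro h0
    apply hb0
    funext i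
    rw [← hfe i, h0, inner_zero_left]
    rfl
  have hfpos : 0 < ‖f‖ := norm_pos_iff.2 hf0
  -- the main estimate
  have key : ∀ z : H, ‖f‖ ≤ (1 + ‖T‖ / c) * ‖T z - f‖ := by
    intro z
    obtain ⟨a, ha⟩ : ∃ a : ι → ℂ, ∀ j, a j = inner ℂ (e j) z := ⟨_, fun _ => rfl⟩
    obtain ⟨d, hdd⟩ : ∃ d : H, d = z - ∑ j, a j • (e j + w j) := ⟨_, rfl⟩
    have hdperp : ∀ i, inner ℂ (e i) d = 0 := by
      intro i
      have h1 : inner ℂ (e i) (∑ j, a j • (e j + w j)) = a i := by
        rw [inner_sum]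
        have h2 : ∀ j, inner ℂ (e i) (a j • (e j + w j)) = if i = j then a j else 0 := by
          intro j
          rw [inner_smul_right, inner_add_right, hw i j, add_zero,
            (orthonormal_iff_ite.1 he) i j]
          split_ifs <;> simp
        simp only [h2, Finset.sum_ite_eq, Finset.mem_univ, if_true]
      rw [hdd, inner_sub_right, h1, ha, sub_self]
    have hperpe : ∀ i, inner ℂ d (e i) = 0 := by
      intro i
      rw [← inner_conj_symm, hdperp i, map_zero]
    have hdV : ∀ s : ι → ℂ, inner ℂ d (∑ i, s i • e i) = 0 := by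
      intro s
      rw [inner_sum]
      refine Finset.sum_eq_zero fun i _ => ?_
      rw [inner_smul_right, hperpe, mul_zero]
    have hTd : T d = T z - ∑ i, (S.mulVec a) i • e i := by
      rw [hdd, map_sub, map_sum]
      congr 1
      have h1 : ∀ j, T (a j • (e j + w j)) = ∑ i, (S i j * a j) • e i := by
        intro j
        rw [map_smul, hTw, Finset.smul_sum]
        refine Finset.sum_congr rfl fun i _ => ?_
        rw [smul_smul, mul_comm]
      simp only [h1]
      rw [Finset.sum_comm]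
      refine Finset.sum_congr rfl fun i _ => ?_
      rw [Matrix.mulVec, dotProduct, Finset.sum_smul]
    obtain ⟨g, hg⟩ : ∃ g : H, g = T z - f := ⟨_, rfl⟩
    have hTz : T z = g + f := by rw [hg, sub_add_cancel]
    rw [← hg]
    -- bound for `d`
    have h1 : inner ℂ d (T d) = inner ℂ d g := by
      rw [hTd, inner_sub_right, hdV, sub_zero, hTz, inner_add_right]
      have : inner ℂ d f = 0 := by rw [hf]; exact hdV _
      rw [this, add_zero]
    have h2 : c * ‖d‖ ^ 2 ≤ ‖d‖ * ‖g‖ := by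
      refine (hc d hdperp).trans ?_
      rw [h1]
      exact (Complex.re_le_norm _).trans (norm_inner_le_norm d g)
    have h3 : c * ‖d‖ ≤ ‖g‖ := by
      rcases (norm_nonneg d).eq_or_lt with h0 | h0
      · rw [← h0, mul_zero]
        exact norm_nonneg _
      · have : ‖d‖ * (c * ‖d‖) ≤ ‖d‖ * ‖g‖ := by
          calc ‖d‖ * (c * ‖d‖) = c * ‖d‖ ^ 2 := by ring
            _ ≤ _ := h2
        exact le_of_mul_le_mul_left this h0
    have h4 : ‖d‖ ≤ ‖g‖ / c := by
      rw [le_div_iff₀ hc0]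
      linarith
    -- the functional `f`
    have h5 : inner ℂ f (T z) = inner ℂ f (T d) := by
      rw [hTd, inner_sub_right, hfs]
      have : ∑ i, (S.mulVec a) i * b i = 0 := by
        have h6 : ∑ i, (S.mulVec a) i * b i = dotProduct b (S.mulVec a) := by
          rw [dotProduct]
          exact Finset.sum_congr rfl fun i _ => mul_comm _ _
        rw [h6, Matrix.dotProduct_mulVec, hb, zero_dotProduct]
      rw [this, sub_zero]
    have h6 : inner ℂ f f = inner ℂ f (T d) - inner ℂ f g := by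
      rw [← h5, hTz, inner_add_right]
      ring
    have h7 : ‖f‖ ^ 2 ≤ ‖f‖ * (‖T‖ * ‖d‖) + ‖f‖ * ‖g‖ := by
      have h8 : ‖(inner ℂ f f : ℂ)‖ = ‖f‖ ^ 2 := by
        rw [inner_self_eq_norm_sq_to_K]
        simp
      rw [← h8, h6]
      refine (norm_sub_le _ _).trans (add_le_add ?_ (norm_inner_le_norm f g))
      refine (norm_inner_le_norm f (T d)).trans ?_
      exact mul_le_mul_of_nonneg_left (T.le_opNorm d) (norm_nonneg _)
    have h9 : ‖f‖ ≤ ‖T‖ * ‖d‖ + ‖g‖ := by
      have : ‖f‖ * ‖f‖ ≤ ‖f‖ * (‖T‖ * ‖d‖ + ‖g‖) := by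
        calc ‖f‖ * ‖f‖ = ‖f‖ ^ 2 := by ring
          _ ≤ _ := h7
          _ = _ := by ring
      exact le_of_mul_le_mul_left this hfpos
    calc ‖f‖ ≤ ‖T‖ * ‖d‖ + ‖g‖ := h9
      _ ≤ ‖T‖ * (‖g‖ / c) + ‖g‖ := by
        have := mul_le_mul_of_nonneg_left h4 (norm_nonneg T)
        linarith
      _ = (1 + ‖T‖ / c) * ‖g‖ := by ring
  -- density
  have hK : 0 < 1 + ‖T‖ / c := by
    have : 0 ≤ ‖T‖ / c := div_nonneg (norm_nonneg _) hc0.le
    linarith
  obtain ⟨z, hz⟩ := hd.exists_dist_lt f (div_pos hfpos hK)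
  rw [dist_comm, dist_eq_norm] at hz
  have h1 := key z
  have h2 : (1 + ‖T‖ / c) * ‖T z - f‖ < ‖f‖ := by
    rw [lt_div_iff₀ hK] at hz
    linarith
  linarith

theorem hS4 (_h1 : StS1) : StS4 := s4

end Pool.Agent.Helper48.SI
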