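import Pool.Agent.Helper99.SI.StT

set_option autoImplicit false

/-!
Module T9 of project SI: two families from a star isomorphism.
-/

namespace Pool.Agent.Helper48.SI

open Pool.Agent.Helper99.SI Pool.Agent.Helper92 Pool.Agent.Helper92.LV

section

variable {L L' : Type} [Ring L] [Algebra ℂ L] [StarRing L] [Ring L'] [Algebra ℂ L'] [StarRing L']

theorem symm_star (φ : L ≃ₐ[ℂ] L') (hs : ∀ y, φ (star y) = star (φ y)) (y : L') :
    φ.symm (star y) = star (φ.symm y) := by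
  apply φ.injective
  rw [φ.apply_symm_apply, hs, φ.apply_symm_apply]

/-- the grading transported by a star isomorphism -/
noncomputable def tr (B : ZGr L') (φ : L ≃ₐ[ℂ] L') (hs : ∀ y, φ (star y) = star (φ y)) : ZGr L where
  p j := φ.symm.toLinearMap ∘ₗ B.p j ∘ₗ φ.toLinearMap
  fin y := by
    refine (B.fin (φ y)).subset ?_
    intro j hj h
    apply hj
    change φ.symm (B.p j (φ y)) = 0
    rw [h, map_zero]
  sum y := by
    have h1 : φ.symm (∑ᶠ j : ℤ, B.p j (φ y)) = ∑ᶠ j : ℤ, φ.symm (B.p j (φ y)) :=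
      (φ.symm.toLinearMap.toAddMonoidHom).map_finsum (f := fun j : ℤ => B.p j (φ y)) (B.fin (φ y))
    change ∑ᶠ j : ℤ, φ.symm (B.p j (φ y)) = y
    rw [← h1, B.sum, φ.symm_apply_apply]
  pp i j y := by
    change φ.symm (B.p i (φ (φ.symm (B.p j (φ y))))) = if i = j then φ.symm (B.p j (φ y)) else 0
    rw [φ.apply_symm_apply, B.pp]
    split_ifs
    · rfl
    · exact map_zero _
  mul i j y z := by
    change φ.symm (B.p (i + j) (φ (φ.symm (B.p i (φ y)) * φ.symm (B.p j (φ z))))) =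
      φ.symm (B.p i (φ y)) * φ.symm (B.p j (φ z))
    rw [map_mul, φ.apply_symm_apply, φ.apply_symm_apply, B.mul, map_mul]
  one := by
    change φ.symm (B.p 0 (φ 1)) = 1
    rw [map_one, B.one, map_one]
  st j y := by
    change φ.symm (B.p (-j) (φ (star y))) = star (φ.symm (B.p j (φ y)))
    rw [hs, B.st, symm_star φ hs]

theorem tr_p (B : ZGr L') (φ : L ≃ₐ[ℂ] L') (hs : ∀ y, φ (star y) = star (φ y)) (j : ℤ) (y : L) :
    (tr B φ hs).p j y = φ.symm (B.p j (φ y)) := rfl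

end

theorem hT9 (h1 : StT8) : StT9 := by
  intro n V E _ _ _ _ G hn hG φ hφ
  have hR : ∀ a : Unit, ∃ x : Fin n, (rose n).s x = a := fun a => ⟨⟨0, hn⟩, rfl⟩
  have hind := canon_indep ℂ (rose n) hR
  obtain ⟨BR, hR0, hR1⟩ := h1 Unit (Fin n) (rose n)
  obtain ⟨BG, hG0, hG1⟩ := h1 V E G
  constructor
  · have h0 := LinearIndependent.ne_zero (Pa.triv (rose n) ()) hind
    exact ⟨⟨_, _, h0⟩⟩
  · refine ⟨{
      fE := canon ℂ (rose n)
      Eg := fun i => (star_gen ℂ (rose n) (Gen.e i)).symm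
      Egen := canon_gens ℂ (rose n)
      Eind := hind
      g := BR
      ge := hR1
      f := (canon ℂ G).map (φ.symm : LPA ℂ G →ₐ[ℂ] LPA ℂ (rose n))
      fg := fun x => ?_
      fv := fun a => ?_
      fgen := (canon ℂ G).map_gens (φ.symm : LPA ℂ G →ₐ[ℂ] LPA ℂ (rose n)) φ.symm.surjective
        (canon_gens ℂ G)
      find := (canon ℂ G).map_indep (φ.symm : LPA ℂ G →ₐ[ℂ] LPA ℂ (rose n)) φ.symm.injective
        (canon_indep ℂ G hG)
      b := tr BG φ hφ
      bv := fun a => ?_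
      be := fun x => ?_ }⟩
    · change φ.symm (gen ℂ G (Gen.g x)) = star (φ.symm (gen ℂ G (Gen.e x)))
      rw [← symm_star φ hφ, star_gen]
    · change star (φ.symm (gen ℂ G (Gen.v a))) = φ.symm (gen ℂ G (Gen.v a))
      rw [← symm_star φ hφ, star_gen]
    · change (tr BG φ hφ).p 0 (φ.symm (gen ℂ G (Gen.v a))) = φ.symm (gen ℂ G (Gen.v a))
      rw [tr_p, φ.apply_symm_apply, hG0]
    · change (tr BG φ hφ).p 1 (φ.symm (gen ℂ G (Gen.e x))) = φ.symm (gen ℂ G (Gen.e x))
      rw [tr_p, φ.apply_symm_apply, hG1]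

end Pool.Agent.Helper48.SI
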